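import Pool.Agent.W624.Kameko9

set_option autoImplicit false

namespace Pool.Agent.Results.MP_ca28bb_gt.DegreeZero

open Pool.Agent.W624.Kameko

/-- For every rank `d ≥ 4` Kameko's squaring operation on coinvariants is not injective in
degree `n = 0`. In particular it is not a monomorphism for `d = 4`. -/
theorem result (d : ℕ) (hd : 4 ≤ d) : ¬ Function.Injective (kamekoCo d 0) :=
  fails_zero d hd

end Pool.Agent.Results.MP_ca28bb_gt.DegreeZero
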