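import Pool.Agent.W624.Kameko9

set_option autoImplicit false

namespace Pool.Agent.Results.MP_ca28bb_gt.FailsFromFive

open Pool.Agent.W624.Kameko

/-- For every rank `d ≥ 5` and every `j ≥ d`, Kameko's squaring operation on coinvariants
`F_2 ⊗_{GL_d} PH_n → F_2 ⊗_{GL_d} PH_{d+2n}` is not injective in the positive degree
`n = 2^j - 1`. The class killed is that of the divided power `a_1^{(2^j-1)}`. -/
theorem result (d : ℕ) (hd : 5 ≤ d) (j : ℕ) (hj : d ≤ j) :
    ¬ Function.Injective (kamekoCo d (2 ^ j - 1)) :=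
  fails_pos d hd j hj

end Pool.Agent.Results.MP_ca28bb_gt.FailsFromFive
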